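import Pool.Agent.K1H32.FE.Stm

/-!
# Lower semicontinuity of the mutual information
-/

set_option autoImplicit false

open Filter Topology

namespace Pool.Agent.K1H26.FE

open Pool.Agent.K1H32.FE

theorem sum_wp {ι : Type} [Fintype ι] {m : ι → ℝ} (hm : IsPr m) (k : ℕ) :
    ∑ w : Fin k → ι, wp m k w = 1 := by
  have := Fintype.sum_pow m k
  rw [hm.sum, one_pow] at this
  exact this.symm

theorem wp_nonneg {ι : Type} [Fintype ι] {m : ι → ℝ} (hm : IsPr m) (k : ℕ) (w : Fin k → ι) :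
    0 ≤ wp m k w := Finset.prod_nonneg fun _ _ => hm.nonneg _

theorem tendsto_wx {ι : Type} {κ : ℕ → Type} (τ : ∀ n, κ n → SL) (e : ∀ n, ι → κ n) (σ : ι → SL)
    (h : ∀ i, Tendsto (fun n => τ n (e n i)) atTop (𝓝 (σ i))) (k : ℕ) (w : Fin k → ι) :
    Tendsto (fun n => wx (τ n) k (fun i => e n (w i))) atTop (𝓝 (wx σ k w)) := by
  unfold wx
  have h1 := tendsto_list_prod (f := fun (i : Fin k) (n : ℕ) => τ n (e n (w i))) (x := atTop)
    (a := fun i => σ (w i)) (List.finRange k) (fun i _ => h (w i))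
  simp only [List.ofFn_eq_map]
  exact h1

/-- the functional of the joint law -/
noncomputable def Phi {q : ℕ} (T : Finset (Option SL)) (P : Option SL → Fin q → ℝ) : ℝ :=
  ∑ x ∈ T, Real.negMulLog (∑ a, P x a) + ∑ a, Real.negMulLog (∑ x ∈ T, P x a) -
    ∑ x ∈ T, ∑ a, Real.negMulLog (P x a)

theorem tendsto_Phi {q : ℕ} (T : Finset (Option SL)) {F : Filter ℕ}
    {Pn : ℕ → Option SL → Fin q → ℝ} {P : Option SL → Fin q → ℝ}
    (h : ∀ x a, Tendsto (fun n => Pn n x a) F (𝓝 (P x a))) :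
    Tendsto (fun n => Phi T (Pn n)) F (𝓝 (Phi T P)) := by
  unfold Phi
  have hc := Real.continuous_negMulLog
  refine (Tendsto.add ?_ ?_).sub ?_
  · exact tendsto_finsetSum _ fun x _ => (hc.tendsto _).comp (tendsto_finsetSum _ fun a _ => h x a)
  · exact tendsto_finsetSum _ fun a _ => (hc.tendsto _).comp (tendsto_finsetSum _ fun x _ => h x a)
  · exact tendsto_finsetSum _ fun x _ => tendsto_finsetSum _ fun a _ => (hc.tendsto _).comp (h x a)

theorem pr_fst {Ω : Type} [Fintype Ω] {q : ℕ} (p : Ω → ℝ) (Y : Ω → Option SL) (A : Ω → Fin q)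
    (x : Option SL) : pr p Y x = ∑ a, pr p (fun ω => (Y ω, A ω)) (x, a) := by
  classical
  unfold pr
  rw [Finset.sum_comm]
  refine Finset.sum_congr rfl fun ω _ => ?_
  rw [Finset.sum_eq_single (A ω)]
  · by_cases h : Y ω = x
    · simp [h]
    · simp [h]
  · intro a _ ha
    rw [if_neg]
    intro h
    exact ha (congrArg Prod.snd h).symm
  · intro h; exact absurd (Finset.mem_univ _) h

theorem pr_snd {Ω : Type} [Fintype Ω] {q : ℕ} (p : Ω → ℝ) (Y : Ω → Option SL) (A : Ω → Fin q)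
    (T : Finset (Option SL)) (hT : ∀ ω, Y ω ∈ T) (a : Fin q) :
    pr p A a = ∑ x ∈ T, pr p (fun ω => (Y ω, A ω)) (x, a) := by
  classical
  unfold pr
  rw [Finset.sum_comm]
  refine Finset.sum_congr rfl fun ω _ => ?_
  rw [Finset.sum_eq_single (Y ω)]
  · by_cases h : A ω = a
    · simp [h]
    · simp [h]
  · intro x _ hx
    rw [if_neg]
    intro h
    exact hx (congrArg Prod.fst h).symm
  · intro h; exact absurd (hT _) h

theorem mi_eq_Phi (hL : S_LAWF) {Ω : Type} [Fintype Ω] {q : ℕ} (p : Ω → ℝ) (Y : Ω → Option SL)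
    (A : Ω → Fin q) (T : Finset (Option SL)) (hT : ∀ ω, Y ω ∈ T) :
    Hp p Y + Hp p A - Hp p (fun ω => (Y ω, A ω)) =
      Phi T (fun x a => pr p (fun ω => (Y ω, A ω)) (x, a)) := by
  rw [hL Ω _ p Y T (fun ω _ => hT ω), hL Ω _ p A Finset.univ (fun ω _ => Finset.mem_univ _),
    hL Ω _ p (fun ω => (Y ω, A ω)) (T ×ˢ Finset.univ)
      (fun ω _ => Finset.mem_product.2 ⟨hT ω, Finset.mem_univ _⟩)]
  unfold Phi
  congr 1
  · congr 1
    · exact Finset.sum_congr rfl fun x _ => by rw [pr_fst p Y A x]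
    · exact Finset.sum_congr rfl fun a _ => by rw [pr_snd p Y A T hT a]
  · exact Finset.sum_product _ _ _

/-- data processing -/
theorem dpi (hM : S_MONO) (hS : S_SUBM) {Ω α β γ : Type} [Fintype Ω] (p : Ω → ℝ) (hp : ∀ ω, 0 ≤ p ω)
    (X : Ω → α) (A : Ω → β) (f : α → γ) :
    Hp p (fun ω => f (X ω)) + Hp p A - Hp p (fun ω => (f (X ω), A ω)) ≤
      Hp p X + Hp p A - Hp p (fun ω => (X ω, A ω)) := by
  have h1 := hS Ω α β γ p X A (fun ω => f (X ω)) hp
  have h2 := hM Ω α (α × γ) p X (fun x => (x, f x)) hp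
  have h3 := hM Ω (α × β × γ) (α × β) p (fun ω => (X ω, A ω, f (X ω))) (fun x => (x.1, x.2.1)) hp
  have h4 := hM Ω (γ × β) (β × γ) p (fun ω => (f (X ω), A ω)) (fun x => (x.2, x.1)) hp
  simp only at h2 h3 h4
  linarith

theorem state_comp {q : ℕ} {φ : Fin q → C(K, ℝ)} (hφ : IsPart φ) {L : C(K, ℝ) →ₗ[ℝ] ℝ}
    (hL : IsState L) (a : Fin q) (g : SL) :
    0 ≤ L ((φ a).comp (act g)) ∧ L ((φ a).comp (act g)) ≤ 1 := by
  refine ⟨hL.nonneg _ fun x => hφ.nonneg a _, ?_⟩
  have h1 : 0 ≤ L (1 - (φ a).comp (act g)) := by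
    refine hL.nonneg _ fun x => ?_
    have h2 := hφ.sum (act g x)
    have h3 : φ a (act g x) ≤ ∑ a, φ a (act g x) :=
      Finset.single_le_sum (f := fun a => φ a (act g x)) (fun b _ => hφ.nonneg b _) (Finset.mem_univ a)
    show 0 ≤ 1 - φ a (act g x)
    linarith
  rw [map_sub, hL.one] at h1
  linarith

theorem jp_nonneg {ι : Type} [Fintype ι] {σ : ι → SL} {m : ι → ℝ} (hm : IsPr m)
    {L : C(K, ℝ) →ₗ[ℝ] ℝ} (hL : IsState L) {q : ℕ} {φ : Fin q → C(K, ℝ)} (hφ : IsPart φ) (k : ℕ)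
    (ω : (Fin k → ι) × Fin q) : 0 ≤ jp σ m L φ k ω :=
  mul_nonneg (wp_nonneg hm k _) (state_comp hφ hL _ _).1

open Classical in
theorem pr_jp {ι : Type} [Fintype ι] (σ : ι → SL) (m : ι → ℝ) (L : C(K, ℝ) →ₗ[ℝ] ℝ) {q : ℕ}
    (φ : Fin q → C(K, ℝ)) (k : ℕ) (Y : (Fin k → ι) → Option SL) (x : Option SL) (a : Fin q) :
    pr (jp σ m L φ k) (fun ω => (Y ω.1, ω.2)) (x, a) =
      ∑ w : Fin k → ι, if Y w = x then wp m k w * L ((φ a).comp (act (wx σ k w))) else 0 := by
  unfold pr
  rw [Fintype.sum_prod_type]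
  refine Finset.sum_congr rfl fun w _ => ?_
  rw [Finset.sum_eq_single a]
  · by_cases h : Y w = x
    · simp [h, jp]
    · simp [h]
  · intro b _ hb
    rw [if_neg]
    intro h
    exact hb (congrArg Prod.snd h)
  · intro h; exact absurd (Finset.mem_univ _) h

open Classical in
/-- the matching of the values -/
noncomputable def fm {ι κ' : Type} (σ : ι → SL) (k : ℕ) (τ : κ' → SL) (e : ι → κ') (g : SL) :
    Option SL :=
  if h : ∃ w : Fin k → ι, wx τ k (fun i => e (w i)) = g then some (wx σ k h.choose) else none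

theorem fm_eq {ι κ' : Type} {σ : ι → SL} {k : ℕ} {τ : κ' → SL} {e : ι → κ'}
    (h : ∀ w w' : Fin k → ι,
      (wx (fun i => τ (e i)) k w = wx (fun i => τ (e i)) k w' ↔ wx σ k w = wx σ k w'))
    (w : Fin k → ι) : fm σ k τ e (wx τ k (fun i => e (w i))) = some (wx σ k w) := by
  unfold fm
  have hex : ∃ w' : Fin k → ι, wx τ k (fun i => e (w' i)) = wx τ k (fun i => e (w i)) := ⟨w, rfl⟩
  rw [dif_pos hex]
  congr 1
  exact (h _ _).1 hex.choose_spec

open Classical in
theorem law_close {ι κ' : Type} [Fintype ι] [Fintype κ'] {σ : ι → SL} {k : ℕ} {τ : κ' → SL}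
    {e : ι → κ'} (he : Function.Injective e)
    (h : ∀ w w' : Fin k → ι,
      (wx (fun i => τ (e i)) k w = wx (fun i => τ (e i)) k w' ↔ wx σ k w = wx σ k w'))
    {r : κ' → ℝ} (hr : IsPr r) (F : (Fin k → κ') → ℝ) (hF : ∀ W, 0 ≤ F W ∧ F W ≤ 1) (x : Option SL) :
    (∑ w : Fin k → ι, if some (wx σ k w) = x then
        wp r k (fun i => e (w i)) * F (fun i => e (w i)) else 0) ≤
      ∑ W : Fin k → κ', (if fm σ k τ e (wx τ k W) = x then wp r k W * F W else 0) ∧
    ∑ W : Fin k → κ', (if fm σ k τ e (wx τ k W) = x then wp r k W * F W else 0) ≤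
      (∑ w : Fin k → ι, if some (wx σ k w) = x then
        wp r k (fun i => e (w i)) * F (fun i => e (w i)) else 0) +
      (1 - ∑ w : Fin k → ι, wp r k (fun i => e (w i))) := by
  have hinj : Function.Injective (fun (w : Fin k → ι) (i : Fin k) => e (w i)) := by
    intro w w' hww
    funext i
    exact he (congrFun hww i)
  set S : Finset (Fin k → κ') := Finset.univ.image (fun (w : Fin k → ι) (i : Fin k) => e (w i)) with hS
  have h1 : ∑ W ∈ S, (if fm σ k τ e (wx τ k W) = x then wp r k W * F W else 0) =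
      ∑ w : Fin k → ι, if some (wx σ k w) = x then
        wp r k (fun i => e (w i)) * F (fun i => e (w i)) else 0 := by
    rw [hS, Finset.sum_image fun w _ w' _ hww => hinj hww]
    refine Finset.sum_congr rfl fun w _ => ?_
    rw [fm_eq h w]
  have h2 : ∑ W ∈ S, wp r k W = ∑ w : Fin k → ι, wp r k (fun i => e (w i)) := by
    rw [hS, Finset.sum_image fun w _ w' _ hww => hinj hww]
  have h3 := Finset.sum_add_sum_compl S (fun W => if fm σ k τ e (wx τ k W) = x then wp r k W * F W else 0)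
  have h4 := Finset.sum_add_sum_compl S (fun W => wp r k W)
  rw [sum_wp hr] at h4
  have h5 : 0 ≤ ∑ W ∈ Sᶜ, (if fm σ k τ e (wx τ k W) = x then wp r k W * F W else 0) := by
    refine Finset.sum_nonneg fun W _ => ?_
    split_ifs
    · exact mul_nonneg (wp_nonneg hr k W) (hF W).1
    · exact le_rfl
  have h6 : ∑ W ∈ Sᶜ, (if fm σ k τ e (wx τ k W) = x then wp r k W * F W else 0) ≤ ∑ W ∈ Sᶜ, wp r k W := by
    refine Finset.sum_le_sum fun W _ => ?_
    split_ifs
    · exact mul_le_of_le_one_right (wp_nonneg hr k W) (hF W).2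
    · exact wp_nonneg hr k W
  constructor <;> linarith

theorem t_LSC (hA : S_ACT) (hE : S_EVEQ) (hM : S_MONO) (hS : S_SUBM) (hL : S_LAWF) : S_LSC := by
  classical
  intro ι _ Γn Γ σ m κ _ τ r e hC U Ln L hU hLn hLs hconv q φ k ε hφ hε
  have hev := hE ι Γn Γ σ m κ τ r e hC k
  set T : Finset (Option SL) := insert none (Finset.univ.image (fun w : Fin k → ι => some (wx σ k w)))
    with hT
  set P : Option SL → Fin q → ℝ := fun x a =>
    pr (jp σ m L φ k) (fun ω => (some (wx σ k ω.1), ω.2)) (x, a) with hP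
  set Pn : ℕ → Option SL → Fin q → ℝ := fun n x a =>
    pr (jp (τ n) (r n) (Ln n) φ k) (fun ω => (fm σ k (τ n) (e n) (wx (τ n) k ω.1), ω.2)) (x, a) with hPn
  have hfT : ∀ n g, fm σ k (τ n) (e n) g ∈ T := by
    intro n g
    unfold fm
    split_ifs with h
    · exact Finset.mem_insert_of_mem (Finset.mem_image_of_mem _ (Finset.mem_univ _))
    · exact Finset.mem_insert_self _ _
  have hjp := jp_nonneg (σ := σ) hC.pr hLs hφ k
  have hlim : MI σ m L φ k ≤ Phi T P := by
    have h1 := mi_eq_Phi hL (jp σ m L φ k) (fun ω => some (wx σ k ω.1)) (fun ω => ω.2) T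
      (fun ω => Finset.mem_insert_of_mem (Finset.mem_image_of_mem _ (Finset.mem_univ ω.1)))
    have h2 := hM _ _ SL (jp σ m L φ k) (fun ω => some (wx σ k ω.1)) (fun x => x.getD 1) hjp
    have h3 := hM _ _ (Option SL × Fin q) (jp σ m L φ k) (fun ω => (wx σ k ω.1, ω.2))
      (fun x => (some x.1, x.2)) hjp
    simp only [Option.getD_some] at h2 h3
    unfold MI
    rw [← h1]
    linarith
  have hn : ∀ n, Phi T (Pn n) ≤ MI (τ n) (r n) (Ln n) φ k := by
    intro n
    have h1 := mi_eq_Phi hL (jp (τ n) (r n) (Ln n) φ k)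
      (fun ω => fm σ k (τ n) (e n) (wx (τ n) k ω.1)) (fun ω => ω.2) T (fun ω => hfT n _)
    have h2 := dpi hM hS (jp (τ n) (r n) (Ln n) φ k) (jp_nonneg (hC.pr_n n) (hLn n) hφ k)
      (fun ω => wx (τ n) k ω.1) (fun ω => ω.2) (fm σ k (τ n) (e n))
    unfold MI
    rw [← h1]
    exact h2
  have htend : ∀ x a, Tendsto (fun n => Pn n x a) U (𝓝 (P x a)) := by
    intro x a
    have hwp : ∀ w : Fin k → ι, Tendsto (fun n => wp (r n) k (fun i => e n (w i))) (U : Filter ℕ)
        (𝓝 (wp m k w)) := by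
      intro w
      refine Tendsto.mono_left ?_ hU
      exact tendsto_finsetProd _ fun i _ => hC.weights (w i)
    have hLw : ∀ w : Fin k → ι, Tendsto
        (fun n => Ln n ((φ a).comp (act (wx (τ n) k (fun i => e n (w i)))))) (U : Filter ℕ)
        (𝓝 (L ((φ a).comp (act (wx σ k w))))) := by
      intro w
      apply hconv
      refine Tendsto.mono_left ?_ hU
      exact ((hA.2.2 (φ a)).tendsto _).comp (tendsto_wx τ e σ hC.letters k w)
    have hG : Tendsto (fun n => ∑ w : Fin k → ι, if some (wx σ k w) = x then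
        wp (r n) k (fun i => e n (w i)) *
          Ln n ((φ a).comp (act (wx (τ n) k (fun i => e n (w i))))) else 0) (U : Filter ℕ)
        (𝓝 (P x a)) := by
      have : P x a = ∑ w : Fin k → ι, if some (wx σ k w) = x then
          wp m k w * L ((φ a).comp (act (wx σ k w))) else 0 :=
        pr_jp σ m L φ k (fun w => some (wx σ k w)) x a
      rw [this]
      refine tendsto_finsetSum _ fun w _ => ?_
      by_cases hx : some (wx σ k w) = x
      · simp only [hx, if_true]
        exact (hwp w).mul (hLw w)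
      · simp only [hx, if_false]
        exact tendsto_const_nhds
    have hδ : Tendsto (fun n => 1 - ∑ w : Fin k → ι, wp (r n) k (fun i => e n (w i))) (U : Filter ℕ)
        (𝓝 0) := by
      have h1 : Tendsto (fun n => 1 - ∑ w : Fin k → ι, wp (r n) k (fun i => e n (w i))) (U : Filter ℕ)
          (𝓝 (1 - ∑ w : Fin k → ι, wp m k w)) :=
        tendsto_const_nhds.sub (tendsto_finsetSum _ fun w _ => hwp w)
      rw [sum_wp hC.pr, sub_self] at h1
      exact h1
    have hG2 := hG.add hδ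
    rw [add_zero] at hG2
    have hgood : ∀ᶠ n in (U : Filter ℕ), Function.Injective (e n) ∧ ∀ w w' : Fin k → ι,
      (wx (fun i => τ n (e n i)) k w = wx (fun i => τ n (e n i)) k w' ↔ wx σ k w = wx σ k w') :=
      (hC.inj.and hev).filter_mono hU
    have hPe : ∀ n, Pn n x a = ∑ W : Fin k → κ n, if fm σ k (τ n) (e n) (wx (τ n) k W) = x then
        wp (r n) k W * Ln n ((φ a).comp (act (wx (τ n) k W))) else 0 := fun n =>
      pr_jp (τ n) (r n) (Ln n) φ k (fun W => fm σ k (τ n) (e n) (wx (τ n) k W)) x a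
    refine tendsto_of_tendsto_of_tendsto_of_le_of_le' hG hG2 ?_ ?_
    · filter_upwards [hgood] with n hn
      rw [hPe n]
      exact (law_close hn.1 hn.2 (hC.pr_n n) (fun W => Ln n ((φ a).comp (act (wx (τ n) k W))))
        (fun W => state_comp hφ (hLn n) a _) x).1
    · filter_upwards [hgood] with n hn
      rw [hPe n]
      exact (law_close hn.1 hn.2 (hC.pr_n n) (fun W => Ln n ((φ a).comp (act (wx (τ n) k W))))
        (fun W => state_comp hφ (hLn n) a _) x).2
  have hPhi := tendsto_Phi T htend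
  have h1 : MI σ m L φ k - ε < Phi T P := by linarith
  filter_upwards [hPhi.eventually (lt_mem_nhds h1)] with n h2
  exact h2.le.trans (hn n)

end Pool.Agent.K1H26.FE
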