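import Pool.Agent.K1H32.FE.Stm

/-!
# The limit of stationary states is stationary
-/

set_option autoImplicit false

open Filter Topology

namespace Pool.Agent.K1H26.FE

open Pool.Agent.K1H32.FE

theorem compact_K : CompactSpace K := by
  have h : IsCompact {v : ℝ × ℝ | v.1 ^ 2 + v.2 ^ 2 = 1} := by
    refine IsCompact.of_isClosed_subset (isCompact_Icc (a := ((-1 : ℝ), (-1 : ℝ))) (b := ((1 : ℝ), (1 : ℝ)))) ?_ ?_
    · exact isClosed_eq (by fun_prop) continuous_const
    · intro v hv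
      have hv' : v.1 ^ 2 + v.2 ^ 2 = 1 := hv
      refine ⟨⟨?_, ?_⟩, ⟨?_, ?_⟩⟩
      · show -1 ≤ v.1
        nlinarith [sq_nonneg v.2]
      · show -1 ≤ v.2
        nlinarith [sq_nonneg v.1]
      · show v.1 ≤ 1
        nlinarith [sq_nonneg v.2]
      · show v.2 ≤ 1
        nlinarith [sq_nonneg v.1]
  exact isCompact_iff_compactSpace.1 h

theorem exists_bd (f : C(K, ℝ)) : ∃ B : ℝ, 0 ≤ B ∧ ∀ x, |f x| ≤ B := by
  have := compact_K
  exact ⟨‖f‖, norm_nonneg _, fun x => f.norm_coe_le_norm x⟩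

theorem state_abs_le {L : C(K, ℝ) →ₗ[ℝ] ℝ} (hL : IsState L) (f : C(K, ℝ)) (B : ℝ)
    (hB : ∀ x, |f x| ≤ B) : |L f| ≤ B := by
  have h1 : 0 ≤ L (B • (1 : C(K, ℝ)) - f) := by
    refine hL.nonneg _ fun x => ?_
    show 0 ≤ B * 1 - f x
    have := (abs_le.1 (hB x)).2
    linarith
  have h2 : 0 ≤ L (B • (1 : C(K, ℝ)) + f) := by
    refine hL.nonneg _ fun x => ?_
    show 0 ≤ B * 1 + f x
    have := (abs_le.1 (hB x)).1
    linarith
  rw [map_sub, map_smul, hL.one, smul_eq_mul, mul_one] at h1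
  rw [map_add, map_smul, hL.one, smul_eq_mul, mul_one] at h2
  rw [abs_le]
  constructor <;> linarith

theorem t_LSTAT (hA : S_ACT) : S_LSTAT := by
  classical
  intro ι _ Γn Γ σ m κ _ τ r e hC U Ln L hU hLn hst hconv f
  obtain ⟨B, hB0, hB⟩ := exists_bd f
  have hw : ∀ i, Tendsto (fun n => r n (e n i)) (U : Filter ℕ) (𝓝 (m i)) := fun i =>
    (hC.weights i).mono_left hU
  have hG : Tendsto (fun n => ∑ i, r n (e n i) * Ln n (f.comp (act (τ n (e n i))))) (U : Filter ℕ)
      (𝓝 (∑ i, m i * L (f.comp (act (σ i))))) := by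
    refine tendsto_finsetSum _ fun i _ => (hw i).mul ?_
    apply hconv
    exact (((hA.2.2 f).tendsto _).comp (hC.letters i)).mono_left hU
  have hδ : Tendsto (fun n => B * (1 - ∑ i, r n (e n i))) (U : Filter ℕ) (𝓝 0) := by
    have h1 : Tendsto (fun n => B * (1 - ∑ i, r n (e n i))) (U : Filter ℕ) (𝓝 (B * (1 - ∑ i, m i))) :=
      tendsto_const_nhds.mul (tendsto_const_nhds.sub (tendsto_finsetSum _ fun i _ => hw i))
    rw [hC.pr.sum, sub_self, mul_zero] at h1
    exact h1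
  have hf : Tendsto (fun n => Ln n f) (U : Filter ℕ) (𝓝 (L f)) := hconv _ _ tendsto_const_nhds
  have hclose : ∀ᶠ n in (U : Filter ℕ),
      |Ln n f - ∑ i, r n (e n i) * Ln n (f.comp (act (τ n (e n i))))| ≤ B * (1 - ∑ i, r n (e n i)) := by
    filter_upwards [hC.inj.filter_mono hU] with n hinj
    set S : Finset (κ n) := Finset.univ.image (e n) with hS
    have h1 := Finset.sum_add_sum_compl S (fun j => r n j * Ln n (f.comp (act (τ n j))))
    have h2 := Finset.sum_add_sum_compl S (fun j => r n j)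
    rw [(hC.pr_n n).sum] at h2
    have h3 : ∑ j ∈ S, r n j * Ln n (f.comp (act (τ n j))) =
        ∑ i, r n (e n i) * Ln n (f.comp (act (τ n (e n i)))) := by
      rw [hS, Finset.sum_image fun i _ i' _ h => hinj h]
    have h4 : ∑ j ∈ S, r n j = ∑ i, r n (e n i) := by
      rw [hS, Finset.sum_image fun i _ i' _ h => hinj h]
    rw [hst n f, ← h1, h3, add_sub_cancel_left]
    refine (Finset.abs_sum_le_sum_abs _ _).trans ?_
    have h5 : B * (1 - ∑ i, r n (e n i)) = ∑ j ∈ Sᶜ, r n j * B := by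
      rw [← Finset.sum_mul, ← h4, ← h2, add_sub_cancel_left]; ring
    rw [h5]
    refine Finset.sum_le_sum fun j _ => ?_
    rw [abs_mul, abs_of_nonneg ((hC.pr_n n).nonneg j)]
    exact mul_le_mul_of_nonneg_left (state_abs_le (hLn n) _ B fun x => hB _) ((hC.pr_n n).nonneg j)
  have hzero : Tendsto (fun n => Ln n f - ∑ i, r n (e n i) * Ln n (f.comp (act (τ n (e n i)))))
      (U : Filter ℕ) (𝓝 0) := squeeze_zero_norm' hclose hδ
  have hfin := hf.sub hG
  have := tendsto_nhds_unique hfin hzero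
  linarith

end Pool.Agent.K1H26.FE
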